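import Pool.Agent.Lib_helper41.TK.Defs2
import Pool.Agent.Lib_helper68.KSLF.TYM

/-! TK, block FG. -/

set_option autoImplicit false

namespace Pool.Agent.TK

open Pool.Agent.LEV Pool.Agent.LVB Pool.Agent.KSL
open Pool.Agent.LK (PQ)
open Pool.Agent.FG61 (mu phi cc ff AA Lam)
open Complex MeasureTheory Filter Topology UpperHalfPlane ModularGroup ProbabilityTheory
open scoped MatrixGroups Modular ENNReal ModularForm ComplexConjugate ContDiff

/-- the coefficients of the rough factor -/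
noncomputable def fg_c (s : ℕ → ℝ) (q z M K m : ℕ) : ℝ :=
  (∏ p ∈ m.primeFactors, s p) * (Real.sqrt m *
    ∑ e ∈ (Finset.Icc 1 (K * M)).filter (fun e => e.Coprime q ∧ m ∣ e), yE z M K e * mu (e / m))

lemma fg_ne {s : ℕ → ℝ} {q z M K m : ℕ} (h : fg_c s q z M K m ≠ 0) :
    ∃ e ∈ Finset.Icc 1 (K * M), m ∣ e ∧ yE z M K e ≠ 0 := by
  by_contra hc
  push Not at hc
  apply h
  unfold fg_c
  rw [Finset.sum_eq_zero, mul_zero, mul_zero]
  intro e he
  rw [Finset.mem_filter] at he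
  rw [hc e he.1 he.2.2, zero_mul]

lemma fg_um {m : ℕ} (hm : Squarefree m) (s x : ℕ → ℝ) :
    Um m (fun p => s p * x p) = (∏ p ∈ m.primeFactors, s p) * Um m x := by
  rw [mrb_um hm, mrb_um hm, Finset.prod_mul_distrib]

lemma fg_exp (s : ℕ → ℝ) (q z M K : ℕ) (x : ℕ → ℝ) :
    MrC q z M K (fun p => s p * x p) = ∑ m ∈ Finset.Icc 1 (K * M), fg_c s q z M K m * Um m x := by
  unfold MrC fg_c
  have h1 : ∀ e ∈ (Finset.Icc 1 (K * M)).filter (fun e => e.Coprime q), (e : ℝ) * yE z M K e *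
      ∏ p ∈ e.primeFactors, (s p * x p / Real.sqrt p - 1 / p) =
      ∑ m ∈ Finset.Icc 1 (K * M), if m ∣ e then (∏ p ∈ m.primeFactors, s p) *
        (Real.sqrt m * (yE z M K e * mu (e / m))) * Um m x else 0 := by
    intro e he
    rw [Finset.mem_filter, Finset.mem_Icc] at he
    by_cases hy : yE z M K e = 0
    · rw [hy]
      simp
    · obtain ⟨_, _, hs⟩ := mrb_yE hy
      rw [mrb_loc (fun p => s p * x p) hs, Finset.mul_sum, ← Finset.sum_filter]
      have h2 : (Finset.Icc 1 (K * M)).filter (fun m => m ∣ e) = e.divisors := by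
        ext m
        simp only [Finset.mem_filter, Finset.mem_Icc, Nat.mem_divisors]
        constructor
        · rintro ⟨_, h⟩; exact ⟨h, by omega⟩
        · rintro ⟨h, _⟩
          exact ⟨⟨Nat.pos_of_dvd_of_pos h (by omega),
            (Nat.le_of_dvd (by omega) h).trans he.1.2⟩, h⟩
      rw [h2]
      refine Finset.sum_congr rfl (fun m hm => ?_)
      have hme := Nat.dvd_of_mem_divisors hm
      have hm0 : 0 < m := Nat.pos_of_mem_divisors hm
      have hk0 : 0 < e / m := Nat.div_pos (Nat.le_of_dvd (by omega) hme) hm0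
      have h3 : (e : ℝ) = m * ((e / m : ℕ) : ℝ) := by
        rw [← Nat.cast_mul, Nat.mul_div_cancel' hme]
      have hm1 : (0 : ℝ) < m := by exact_mod_cast hm0
      have hk1 : (0 : ℝ) < ((e / m : ℕ) : ℝ) := by exact_mod_cast hk0
      rw [h3, fg_um (hs.squarefree_of_dvd hme)]
      have h4 : (m : ℝ) = Real.sqrt m * Real.sqrt m := (Real.mul_self_sqrt hm1.le).symm
      have h5 : 0 < Real.sqrt m := Real.sqrt_pos.mpr hm1
      generalize ((e / m : ℕ) : ℝ) = k at *
      generalize Real.sqrt (m : ℝ) = r at *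
      rw [h4]
      field_simp
  rw [Finset.sum_congr rfl h1, Finset.sum_comm]
  refine Finset.sum_congr rfl (fun m _ => ?_)
  rw [← Finset.sum_filter, Finset.filter_filter, Finset.mul_sum, Finset.mul_sum, Finset.sum_mul]

lemma fg_c_le {s : ℕ → ℝ} (hs1 : ∀ p, |s p| ≤ 1) (q : ℕ) {z M : ℕ} (hM : 2 ≤ M)
    (hb : |be z M 2| ≤ Real.log M) (m : ℕ) (hm : 1 ≤ m) :
    fg_c s q z M 2 m ^ 2 ≤ (∑ r ∈ RO z (2 * M), mu r ^ 2 / phi r) ^ 2 *
      (if m ∈ RO z (2 * M) then mu m ^ 2 / phi m else 0) := by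
  classical
  set R := ∑ r ∈ RO z (2 * M), mu r ^ 2 / phi r with hR
  have hR0 : 0 ≤ R := Finset.sum_nonneg (fun r _ => by unfold phi; positivity)
  by_cases hc : fg_c s q z M 2 m = 0
  · rw [hc]
    have : 0 ≤ (if m ∈ RO z (2 * M) then mu m ^ 2 / phi m else 0) := by
      split_ifs
      · unfold phi; positivity
      · exact le_refl _
    have h0 : (0 : ℝ) ^ 2 = 0 := by norm_num
    rw [h0]
    exact mul_nonneg (sq_nonneg _) this
  · obtain ⟨e, he, hme, hy⟩ := fg_ne hc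
    obtain ⟨hr, he1, hs⟩ := mrb_yE hy
    rw [Finset.mem_Icc] at he
    have hms : Squarefree m := hs.squarefree_of_dvd hme
    have hmr : rough z m := fun p hp hpm => hr p hp (hpm.trans hme)
    have hmR : m ∈ RO z (2 * M) := by
      unfold RO
      rw [Finset.mem_filter, Finset.mem_Icc]
      exact ⟨⟨hm, (Nat.le_of_dvd (by omega) hme).trans he.2⟩, hmr⟩
    rw [if_pos hmR]
    have hm0 : (0 : ℝ) < m := by exact_mod_cast hm
    -- the inner sum
    have h1 : |∑ e ∈ (Finset.Icc 1 (2 * M)).filter (fun e => e.Coprime q ∧ m ∣ e),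
        yE z M 2 e * mu (e / m)| ≤ R / m := by
      refine (Finset.abs_sum_le_sum_abs _ _).trans ?_
      have h2 : ∀ e ∈ (Finset.Icc 1 (2 * M)).filter (fun e => e.Coprime q ∧ m ∣ e),
          |yE z M 2 e * mu (e / m)| ≤
          (if e / m ∈ RO z (2 * M) then mu (e / m) ^ 2 / phi (e / m) else 0) / m := by
        intro e he
        rw [Finset.mem_filter, Finset.mem_Icc] at he
        obtain ⟨⟨he1, he2⟩, _, hme⟩ := he
        by_cases hy : yE z M 2 e = 0
        · rw [hy, zero_mul, abs_zero]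
          have : 0 ≤ (if e / m ∈ RO z (2 * M) then mu (e / m) ^ 2 / phi (e / m) else 0) := by
            split_ifs
            · unfold phi; positivity
            · exact le_refl _
          positivity
        · obtain ⟨hr, _, hs⟩ := mrb_yE hy
          have hk : e / m ∣ e := Nat.div_dvd_of_dvd hme
          have hks : Squarefree (e / m) := hs.squarefree_of_dvd hk
          have hk0 : 0 < e / m := Nat.div_pos (Nat.le_of_dvd (by omega) hme) (by omega)
          have hkR : e / m ∈ RO z (2 * M) := by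
            unfold RO
            rw [Finset.mem_filter, Finset.mem_Icc]
            exact ⟨⟨hk0, (Nat.le_of_dvd (by omega) hk).trans he2⟩,
              fun p hp hpm => hr p hp (hpm.trans hk)⟩
          rw [if_pos hkR, abs_mul]
          have h3 := mrb_yE_le hM hb e he1
          have h4 : (e : ℝ) = m * ((e / m : ℕ) : ℝ) := by
            rw [← Nat.cast_mul, Nat.mul_div_cancel' hme]
          have hk1 : (0 : ℝ) < ((e / m : ℕ) : ℝ) := by exact_mod_cast hk0
          have hmu1 : mu (e / m) ^ 2 = 1 := by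
            unfold mu
            have := ArithmeticFunction.moebius_sq_eq_one_of_squarefree hks
            exact_mod_cast this
          have hphi : phi (e / m) ≤ ((e / m : ℕ) : ℝ) := by
            unfold phi; exact_mod_cast Nat.totient_le _
          have hphi0 : 0 < phi (e / m) := by
            unfold phi; exact_mod_cast Nat.totient_pos.mpr hk0
          calc |yE z M 2 e| * |mu (e / m)| ≤ 1 / e * 1 :=
                mul_le_mul h3 (mrb_abs_mu _) (abs_nonneg _) (by positivity)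
            _ = 1 / ((e / m : ℕ) : ℝ) / m := by rw [h4]; field_simp
            _ ≤ mu (e / m) ^ 2 / phi (e / m) / m := by
                rw [hmu1]
                gcongr
      refine (Finset.sum_le_sum h2).trans ?_
      rw [← Finset.sum_div]
      refine div_le_div_of_nonneg_right ?_ hm0.le
      rw [← Finset.sum_filter]
      have hinj : Set.InjOn (fun e => e / m)
          (((Finset.Icc 1 (2 * M)).filter (fun e => e.Coprime q ∧ m ∣ e)).filter
          (fun e => e / m ∈ RO z (2 * M)) : Finset ℕ) := by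
        intro a ha b hb hab
        simp only [Finset.coe_filter, Finset.mem_filter, Set.mem_ofPred_eq] at ha hb
        have h1 := Nat.div_mul_cancel ha.1.2.2
        have h2 := Nat.div_mul_cancel hb.1.2.2
        simp only at hab
        rw [← h1, ← h2, hab]
      rw [← Finset.sum_image (g := fun e => e / m) (f := fun k => mu k ^ 2 / phi k) hinj]
      apply Finset.sum_le_sum_of_subset_of_nonneg
      · intro k hk
        rw [Finset.mem_image] at hk
        obtain ⟨e, he, rfl⟩ := hk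
        exact (Finset.mem_filter.mp he).2
      · intro k _ _
        unfold phi; positivity
    have hsp : |∏ p ∈ m.primeFactors, s p| ≤ 1 := by
      rw [Finset.abs_prod]
      exact Finset.prod_le_one (fun p _ => abs_nonneg _) (fun p _ => hs1 p)
    have hsp2 : (∏ p ∈ m.primeFactors, s p) ^ 2 ≤ 1 := by
      rw [← sq_abs]
      exact pow_le_one₀ (abs_nonneg _) hsp
    have h5 : fg_c s q z M 2 m ^ 2 ≤ m * (R / m) ^ 2 := by
      unfold fg_c
      rw [mul_pow, mul_pow, Real.sq_sqrt hm0.le]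
      have h6 : (∑ e ∈ (Finset.Icc 1 (2 * M)).filter (fun e => e.Coprime q ∧ m ∣ e),
        yE z M 2 e * mu (e / m)) ^ 2 ≤ (R / m) ^ 2 := by
        rw [← sq_abs]
        exact pow_le_pow_left₀ (abs_nonneg _) h1 2
      have h7 := mul_le_mul_of_nonneg_left h6 hm0.le
      have h8 : 0 ≤ (m : ℝ) * (∑ e ∈ (Finset.Icc 1 (2 * M)).filter
        (fun e => e.Coprime q ∧ m ∣ e), yE z M 2 e * mu (e / m)) ^ 2 :=
        mul_nonneg hm0.le (sq_nonneg _)
      calc _ ≤ 1 * ((m : ℝ) * (∑ e ∈ (Finset.Icc 1 (2 * M)).filter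
        (fun e => e.Coprime q ∧ m ∣ e), yE z M 2 e * mu (e / m)) ^ 2) :=
            mul_le_mul_of_nonneg_right hsp2 h8
        _ ≤ _ := by rw [one_mul]; exact h7
    refine h5.trans ?_
    have hmu1 : mu m ^ 2 = 1 := by
      unfold mu
      have := ArithmeticFunction.moebius_sq_eq_one_of_squarefree hms
      exact_mod_cast this
    have hphi : phi m ≤ (m : ℝ) := by
      unfold phi; exact_mod_cast Nat.totient_le _
    have hphi0 : 0 < phi m := by
      unfold phi; exact_mod_cast Nat.totient_pos.mpr hm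
    rw [hmu1]
    have h6 : (m : ℝ) * (R / m) ^ 2 = R ^ 2 * (1 / m) := by field_simp
    rw [h6]
    gcongr

/-- the mean square, for a general set of primes -/
lemma fg_sq {δ : ℝ} (h0 : 0 < δ) (h1 : δ < 1 / 4) : ∃ (C : ℝ) (N₀ : ℕ), ∀ n : ℕ, N₀ ≤ n →
    ∀ (s : ℕ → ℝ), (∀ p, |s p| ≤ 1) → ∀ q : ℕ, ∀ I : Finset ℕ, (∀ p ∈ I, p.Prime) →
    (∀ p : ℕ, p.Prime → p ≤ 2 * MM δ n → p ∈ I) → ∀ P : Measure (ℕ → ℝ), IsST I P →
      ∫ x, MrC q (zz n) (MM δ n) 2 (fun p => s p * x p) ^ 2 ∂P ≤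
        C * Real.log (Real.log n) ^ 8 := by
  classical
  obtain ⟨N₁, hN₁⟩ := sizes h0 h1 (ε := 1) one_pos
  obtain ⟨N₂, hN₂⟩ := be_small h0 h1 (ε := 1) one_pos
  obtain ⟨C, hC, hup⟩ := rsum_up
  refine ⟨(C * 3) ^ 3, max 5 (max N₁ N₂), fun N hN s hs1 q I hI hI2 P hP => ?_⟩
  have hN5 : 5 ≤ N := (le_max_left _ _).trans hN
  obtain ⟨hN3, hz2, hzM, _, hlz, hsz, _, hll, _⟩ :=
    hN₁ N ((le_max_left _ _).trans ((le_max_right _ _).trans hN))
  obtain ⟨_, hbe, _⟩ := hN₂ N ((le_max_right _ _).trans ((le_max_right _ _).trans hN))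
  rw [one_mul] at hbe
  have hM2 : 2 ≤ MM δ N := by omega
  have hlt := mrb_len h0 hN5
  set z := zz N with hz
  set M := MM δ N with hM
  have hc : ∀ m, fg_c s q z M 2 m ≠ 0 → 1 ≤ m ∧ m ≤ 2 * M ∧ m.primeFactors ⊆ I := by
    intro m hm
    obtain ⟨e, he, hme, hy⟩ := fg_ne hm
    rw [Finset.mem_Icc] at he
    refine ⟨Nat.pos_of_dvd_of_pos hme (by omega), (Nat.le_of_dvd (by omega) hme).trans he.2, ?_⟩
    intro p hp
    have hp' := Nat.mem_primeFactors.mp hp
    refine hI2 p hp'.1 ?_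
    have : p ≤ e := Nat.le_of_dvd (by omega) (hp'.2.1.trans hme)
    omega
  have h2 : ∫ x, MrC q z M 2 (fun p => s p * x p) ^ 2 ∂P =
      ∑ m ∈ Finset.Icc 1 (2 * M), fg_c s q z M 2 m ^ 2 := by
    rw [← st_sq hI hP hc]
    refine integral_congr_ae (Eventually.of_forall (fun x => ?_))
    simp only
    rw [fg_exp]
  rw [h2]
  set R := ∑ r ∈ RO z (2 * M), mu r ^ 2 / phi r with hR
  have hR0 : 0 ≤ R := Finset.sum_nonneg (fun r _ => by unfold phi; positivity)
  have h3 : ∑ m ∈ Finset.Icc 1 (2 * M), fg_c s q z M 2 m ^ 2 ≤ R ^ 3 := by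
    have h4 : ∑ m ∈ Finset.Icc 1 (2 * M), fg_c s q z M 2 m ^ 2 ≤
        ∑ m ∈ Finset.Icc 1 (2 * M), R ^ 2 * (if m ∈ RO z (2 * M) then mu m ^ 2 / phi m else 0) :=
      Finset.sum_le_sum (fun m hm => fg_c_le hs1 q hM2 hbe m (Finset.mem_Icc.mp hm).1)
    refine h4.trans (le_of_eq ?_)
    rw [← Finset.mul_sum, ← Finset.sum_filter]
    have h5 : (Finset.Icc 1 (2 * M)).filter (fun m => m ∈ RO z (2 * M)) = RO z (2 * M) := by
      ext m
      simp only [Finset.mem_filter]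
      constructor
      · exact fun h => h.2
      · intro h
        refine ⟨?_, h⟩
        unfold RO at h
        exact (Finset.mem_filter.mp h).1
    rw [h5]
    ring
  refine h3.trans ?_
  have hlz0 : 0 < Real.log z := by linarith
  have hll1 : 1 ≤ Real.log (Real.log N) := by linarith
  have h6 : R ≤ C * 3 * Real.log (Real.log N) ^ 2 := by
    refine (hup z (2 * M) hz2 (by omega)).trans ?_
    have h7 : Real.log ((2 * M : ℕ) : ℝ) ≤ Real.log N := by
      apply Real.log_le_log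
      · exact_mod_cast (by omega : 0 < 2 * M)
      · exact_mod_cast hlt.le
    have h8 : Real.log ((2 * M : ℕ) : ℝ) / Real.log z ≤ 2 * Real.log (Real.log N) ^ 2 := by
      rw [div_le_iff₀ hlz0]
      linarith
    have h9 : 1 ≤ Real.log (Real.log N) ^ 2 := one_le_pow₀ hll1
    rw [mul_assoc]
    refine mul_le_mul_of_nonneg_left ?_ hC.le
    linarith
  calc R ^ 3 ≤ (C * 3 * Real.log (Real.log N) ^ 2) ^ 3 := pow_le_pow_left₀ hR0 h6 3
    _ = (C * 3) ^ 3 * Real.log (Real.log N) ^ 6 := by ring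
    _ ≤ (C * 3) ^ 3 * Real.log (Real.log N) ^ 8 := by
        refine mul_le_mul_of_nonneg_left ?_ (by positivity)
        exact pow_le_pow_right₀ hll1 (by norm_num)

lemma fg_re {q : ℕ} [NeZero q] (χ : DirichletCharacter ℂ q) (p : ℕ) : |(χ p).re| ≤ 1 :=
  (Complex.abs_re_le_norm _).trans (χ.norm_le_one _)

/-- the mean square of the rough factor -/
theorem mrC_sq {δ : ℝ} (h0 : 0 < δ) (h1 : δ < 1 / 4) : ∃ (C : ℝ) (N₀ : ℕ), ∀ n : ℕ, N₀ ≤ n →
    ∀ (q : ℕ) [NeZero q] (χ : DirichletCharacter ℂ q), PQ χ → q ≤ n → ∀ P : Measure (ℕ → ℝ),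
    IsST (Pr n) P →
      ∫ x, MrC q (zz n) (MM δ n) 2 (fun p => (χ p).re * x p) ^ 2 ∂P ≤
        C * Real.log (Real.log n) ^ 8 := by
  obtain ⟨C, N₀, hN₀⟩ := fg_sq h0 h1
  refine ⟨C, max 5 N₀, fun n hn q _ χ _ _ P hP => ?_⟩
  refine hN₀ n ((le_max_right _ _).trans hn) (fun p => (χ p).re) (fun p => fg_re χ p) q (Pr n)
    ?_ ?_ P hP
  · intro p hp
    unfold Pr at hp
    exact (Finset.mem_filter.mp hp).2
  · intro p hp hp2
    have := mrb_len h0 ((le_max_left _ _).trans hn)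
    unfold Pr
    rw [Finset.mem_filter, Finset.mem_range]
    exact ⟨by omega, hp⟩

theorem typ_mC {δ : ℝ} (h0 : 0 < δ) (h1 : δ < 1 / 4) {δ' ε : ℝ} (hδ' : 0 < δ') (hε : 0 < ε) :
    ∃ N₀ : ℕ, ∀ (N : ℕ) [Fact N.Prime], N₀ ≤ N → ∀ {ι : Type} [Fintype ι] (f : ι → S2 N),
    Function.Injective f → (∀ i, IsNew (f i)) → ∀ (q : ℕ) [NeZero q]
    (χ : DirichletCharacter ℂ q), PQ χ → (q : ℝ) ≤ (N : ℝ) ^ (1 / 10 : ℝ) → ∀ t : Finset ι,
      (∀ i ∈ t, Real.log N ^ δ' <
        |MrC q (zz (N * q ^ 2)) (MM δ (N * q ^ 2)) 2 (lx χ (f i))|) →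
      ∑ i ∈ t, om (f i) ≤ ε := by
  obtain ⟨C, N₁, hN₁⟩ := fg_sq h0 h1
  have hlim : ∃ N₃ : ℕ, ∀ N : ℕ, N₃ ≤ N → 1 ≤ Real.log (Real.log N) ∧
      2 * |C| * (2 * Real.log (Real.log N)) ^ 8 ≤ ε * Real.log N ^ (2 * δ') := by
    have hL : Tendsto (fun N : ℕ => Real.log N) atTop atTop :=
      Real.tendsto_log_atTop.comp tendsto_natCast_atTop_atTop
    have hl : Tendsto (fun N : ℕ => Real.log (Real.log N)) atTop atTop :=
      Real.tendsto_log_atTop.comp hL
    have h2 : Tendsto (fun u : ℝ => (2 * |C| * 2 ^ 8) / (2 * δ') ^ 8 *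
        ((2 * δ' * u) ^ 8 * Real.exp (-(2 * δ' * u)))) atTop (𝓝 0) := by
      have h3 := Real.tendsto_pow_mul_exp_neg_atTop_nhds_zero 8
      have h4 : Tendsto (fun u : ℝ => 2 * δ' * u) atTop atTop :=
        Tendsto.const_mul_atTop (by positivity) tendsto_id
      have h5 := (h3.comp h4).const_mul ((2 * |C| * 2 ^ 8) / (2 * δ') ^ 8)
      rw [mul_zero] at h5
      exact h5
    have h5 := h2.comp hl
    obtain ⟨N₃, hN₃⟩ := Filter.eventually_atTop.mp
      (((h5.eventually (gt_mem_nhds hε)).and (hl.eventually_ge_atTop 1)).and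
        (hL.eventually_ge_atTop 1))
    refine ⟨N₃, fun N hN => ?_⟩
    obtain ⟨⟨h6, h7⟩, h8⟩ := hN₃ N hN
    refine ⟨h7, ?_⟩
    simp only [Function.comp] at h6
    have hpos : (0 : ℝ) < Real.log N := by linarith
    have h9 : Real.log N ^ (2 * δ') = Real.exp (2 * δ' * Real.log (Real.log N)) := by
      rw [Real.rpow_def_of_pos hpos]
      congr 1
      ring
    rw [h9]
    generalize Real.log (Real.log (N : ℝ)) = u at *
    rw [Real.exp_neg, ← mul_assoc, ← div_eq_mul_inv, div_lt_iff₀ (Real.exp_pos _)] at h6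
    refine le_trans (le_of_eq ?_) h6.le
    field_simp
  obtain ⟨N₃, hN₃⟩ := hlim
  refine ⟨N₁ + N₃ + 10 ^ 60, fun N _ hN ι _ f hi hn q _ χ hχ hq t ht => ?_⟩
  have hq1 : 1 ≤ q := Nat.one_le_iff_ne_zero.mpr (NeZero.ne q)
  set n := N * q ^ 2 with hndef
  have hNn : N ≤ n := by
    rw [hndef]
    exact Nat.le_mul_of_pos_right N (by positivity)
  have hPr : ∀ p ∈ Pr N, p.Prime ∧ p < N := by
    intro p hp
    unfold Pr at hp
    rw [Finset.mem_filter, Finset.mem_range] at hp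
    exact ⟨hp.2, hp.1⟩
  obtain ⟨P, hP⟩ := st_exists (Pr N) (fun p hp => (hPr p hp).1)
  have hNr : (10 ^ 60 : ℝ) ≤ N := by
    have : (10 ^ 60 : ℕ) ≤ N := by omega
    exact_mod_cast this
  have hN1 : (1 : ℝ) ≤ N := le_trans (by norm_num) hNr
  have hN0 : (0 : ℝ) < N := by linarith
  have hnr : (n : ℝ) ≤ (N : ℝ) ^ (6 / 5 : ℝ) := by
    have h2 : (q : ℝ) ^ 2 ≤ ((N : ℝ) ^ (1 / 10 : ℝ)) ^ 2 :=
      pow_le_pow_left₀ (Nat.cast_nonneg _) hq 2
    rw [← Real.rpow_natCast ((N : ℝ) ^ (1 / 10 : ℝ)) 2, ← Real.rpow_mul hN0.le] at h2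
    rw [hndef]
    push_cast
    calc (N : ℝ) * (q : ℝ) ^ 2 ≤ (N : ℝ) * (N : ℝ) ^ (1 / 10 * ((2 : ℕ) : ℝ)) := by gcongr
      _ = (N : ℝ) ^ (1 : ℝ) * (N : ℝ) ^ (1 / 10 * ((2 : ℕ) : ℝ)) := by rw [Real.rpow_one]
      _ = (N : ℝ) ^ (1 + 1 / 10 * ((2 : ℕ) : ℝ)) := by rw [Real.rpow_add hN0]
      _ = (N : ℝ) ^ (6 / 5 : ℝ) := by norm_num
  have hn0 : (0 : ℝ) < n := by
    have : (N : ℝ) ≤ n := by exact_mod_cast hNn
    linarith
  have hn1 : (1 : ℝ) ≤ n := by
    have : (N : ℝ) ≤ n := by exact_mod_cast hNn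
    linarith
  -- the length
  have hMn : (MM δ n : ℝ) ≤ (N : ℝ) ^ (3 / 5 : ℝ) := by
    have h3 : (MM δ n : ℝ) ≤ (n : ℝ) ^ (1 / 2 - δ) := Nat.floor_le (by positivity)
    have h4 : (n : ℝ) ^ (1 / 2 - δ) ≤ (n : ℝ) ^ (1 / 2 : ℝ) :=
      Real.rpow_le_rpow_of_exponent_le hn1 (by linarith)
    have h5 : (n : ℝ) ^ (1 / 2 : ℝ) ≤ ((N : ℝ) ^ (6 / 5 : ℝ)) ^ (1 / 2 : ℝ) :=
      Real.rpow_le_rpow hn0.le hnr (by norm_num)
    rw [← Real.rpow_mul hN0.le] at h5
    norm_num at h5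
    linarith
  have hbig : (10 ^ 24 : ℝ) ≤ (N : ℝ) ^ (2 / 5 : ℝ) := by
    have h2 : ((10 ^ 60 : ℝ)) ^ (2 / 5 : ℝ) ≤ (N : ℝ) ^ (2 / 5 : ℝ) :=
      Real.rpow_le_rpow (by positivity) hNr (by norm_num)
    have h3 : ((10 ^ 60 : ℝ)) ^ (2 / 5 : ℝ) = 10 ^ 24 := by
      rw [← Real.rpow_natCast (10 : ℝ) 60, ← Real.rpow_mul (by norm_num),
        ← Real.rpow_natCast (10 : ℝ) 24]
      norm_num
    rw [h3] at h2
    exact h2
  have hN35 : (N : ℝ) ^ (3 / 5 : ℝ) * 10 ^ 24 ≤ N := by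
    calc (N : ℝ) ^ (3 / 5 : ℝ) * 10 ^ 24 ≤ (N : ℝ) ^ (3 / 5 : ℝ) * (N : ℝ) ^ (2 / 5 : ℝ) := by
          gcongr
      _ = (N : ℝ) ^ (3 / 5 + 2 / 5 : ℝ) := by rw [Real.rpow_add hN0]
      _ = N := by norm_num
  have hM2 : ((2 * MM δ n : ℕ) : ℝ) ≤ (1 / 100) ^ 2 * N := by
    push_cast
    have h3 : (0 : ℝ) ≤ MM δ n := Nat.cast_nonneg _
    have h4 : (MM δ n : ℝ) * 10 ^ 24 ≤ N := by
      refine le_trans ?_ hN35
      gcongr
    nlinarith
  have hMN : 2 * MM δ n < N := by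
    have h3 : ((2 * MM δ n : ℕ) : ℝ) < N := by
      have : (1 / 100 : ℝ) ^ 2 * N < N := by nlinarith
      linarith
    exact_mod_cast h3
  have hM1 : 1 ≤ 2 * MM δ n := by
    have : 1 ≤ MM δ n := by
      unfold MM
      apply Nat.le_floor
      push_cast
      exact Real.one_le_rpow hn1 (by linarith)
    omega
  have hI2 : ∀ p : ℕ, p.Prime → p ≤ 2 * MM δ n → p ∈ Pr N := by
    intro p hp hp2
    unfold Pr
    rw [Finset.mem_filter, Finset.mem_range]
    exact ⟨by omega, hp⟩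
  have hsq := hN₁ n (by omega) (fun p => (χ p).re) (fun p => fg_re χ p) q (Pr N)
    (fun p hp => (hPr p hp).1) hI2 P hP
  have hpoly : HPoly (Pr N) (2 * MM δ n)
      (fun x => MrC q (zz n) (MM δ n) 2 (fun p => (χ p).re * x p)) := by
    refine ⟨fg_c (fun p => (χ p).re) q (zz n) (MM δ n) 2, ?_, fun x => fg_exp _ _ _ _ _ x⟩
    intro m hm
    obtain ⟨e, he, hme, hy⟩ := fg_ne hm
    rw [Finset.mem_Icc] at he
    refine ⟨Nat.pos_of_dvd_of_pos hme (by omega), (Nat.le_of_dvd (by omega) hme).trans he.2, ?_⟩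
    intro p hp
    have hp' := Nat.mem_primeFactors.mp hp
    refine hI2 p hp'.1 ?_
    have : p ≤ e := Nat.le_of_dvd (by omega) (hp'.2.1.trans hme)
    omega
  have htr := transfer f hi hn (ν := 1 / 100) (by norm_num) (by norm_num) hM1 hM2
    (I := Pr N) hPr hP hpoly 0
  simp only [zero_mul, add_zero] at htr
  have h5 : (0 : ℝ) ≤ ∫ x, MrC q (zz n) (MM δ n) 2 (fun p => (χ p).re * x p) ^ 2 ∂P :=
    integral_nonneg fun x => sq_nonneg _
  obtain ⟨hll, hfin⟩ := hN₃ N (by omega)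
  -- the double logarithm of `n`
  have hlogN : 1 ≤ Real.log N := by
    by_contra h
    push Not at h
    have h2 : Real.log (Real.log N) ≤ 0 := by
      apply Real.log_nonpos _ h.le
      exact Real.log_nonneg hN1
    linarith
  have hloglog : Real.log (Real.log n) ≤ 2 * Real.log (Real.log N) := by
    have h3 : Real.log n ≤ 6 / 5 * Real.log N := by
      have := Real.log_le_log hn0 hnr
      rwa [Real.log_rpow hN0] at this
    have h4 : Real.log N ≤ Real.log n := Real.log_le_log hN0 (by exact_mod_cast hNn)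
    have h6 : Real.log (Real.log n) ≤ Real.log (6 / 5 * Real.log N) :=
      Real.log_le_log (by linarith) h3
    rw [Real.log_mul (by norm_num) (by linarith)] at h6
    have h7 : Real.log (6 / 5) ≤ 1 := by
      have := Real.log_le_sub_one_of_pos (show (0 : ℝ) < 6 / 5 by norm_num)
      linarith
    linarith
  have hloglog0 : 0 ≤ Real.log (Real.log n) := by
    have h4 : Real.log N ≤ Real.log n := Real.log_le_log hN0 (by exact_mod_cast hNn)
    exact Real.log_nonneg (by linarith)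
  have h6 : ∑ i, om (f i) * MrC q (zz n) (MM δ n) 2 (lx χ (f i)) ^ 2 ≤
      2 * (|C| * (2 * Real.log (Real.log N)) ^ 8) := by
    refine (le_of_eq ?_ |>.trans htr).trans ?_
    · rfl
    have h7 : ∫ x, MrC q (zz n) (MM δ n) 2 (fun p => (χ p).re * x p) ^ 2 ∂P ≤
        |C| * (2 * Real.log (Real.log N)) ^ 8 := by
      refine hsq.trans ?_
      exact mul_le_mul (le_abs_self _) (pow_le_pow_left₀ hloglog0 hloglog 8)
        (by positivity) (abs_nonneg _)
    have h0p : (0 : ℝ) ^ 2 = 0 := by norm_num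
    rw [h0p, add_zero]
    exact mul_le_mul tym_exp h7 h5 (by norm_num)
  have hLp : (0 : ℝ) < Real.log N ^ (2 * δ') := Real.rpow_pos_of_pos (by linarith) _
  have h7 := HAR_cheb (fun i => om (f i)) (fun i => MrC q (zz n) (MM δ n) 2 (lx χ (f i)) ^ 2)
    (fun i => tym_om _) (fun i => sq_nonneg _)
    (t := Real.log N ^ (2 * δ')) hLp h6 t (by
      intro i hi'
      have h8 := ht i hi'
      have h9 : Real.log N ^ (2 * δ') = (Real.log N ^ δ') ^ 2 := by
        rw [← Real.rpow_natCast, ← Real.rpow_mul (by linarith)]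
        congr 1
        push_cast
        ring
      show Real.log N ^ (2 * δ') ≤ MrC q (zz n) (MM δ n) 2 (lx χ (f i)) ^ 2
      rw [h9, ← sq_abs (MrC q (zz n) (MM δ n) 2 (lx χ (f i)))]
      exact pow_le_pow_left₀ (Real.rpow_nonneg (by linarith) _) h8.le 2)
  refine h7.trans ?_
  rw [div_le_iff₀ hLp]
  linarith

end Pool.Agent.TK
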